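import Pool.Agent.T9h98.DC.Defs

/-!
# Piece (DIM) of project DC (helper98): dimensions of a chain of exposed faces
-/

set_option autoImplicit false

open Set

namespace Pool.Agent.T9h77.DC

open Pool.Agent.T9h98.DC

theorem finrank_lt {d : ℕ} {P F F' : Set (E d)} (hF : IsFace P F) (hF' : F' ⊆ P) (h : F ⊂ F') :
    Module.finrank ℝ (vectorSpan ℝ F) < Module.finrank ℝ (vectorSpan ℝ F') := by
  obtain ⟨hne, hexp⟩ := hF
  obtain ⟨l, hl⟩ := hexp hne
  obtain ⟨x, hx⟩ := hne
  obtain ⟨y, hy, hyF⟩ := exists_of_ssubset h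
  apply Submodule.finrank_lt_finrank_of_lt
  refine lt_of_le_of_ne (vectorSpan_mono ℝ h.1) ?_
  intro hcon
  have hker : vectorSpan ℝ F ≤ LinearMap.ker (l : E d →ₗ[ℝ] ℝ) := by
    rw [vectorSpan_def, Submodule.span_le]
    rintro v ⟨a, ha, b, hb, rfl⟩
    have ha' := ha
    have hb' := hb
    rw [hl] at ha' hb'
    have h1 := ha'.2 b hb'.1
    have h2 := hb'.2 a ha'.1
    have h3 : l (a -ᵥ b) = 0 := by
      rw [vsub_eq_sub, map_sub]
      linarith
    exact h3
  have hv : y -ᵥ x ∈ vectorSpan ℝ F' := vsub_mem_vectorSpan ℝ hy (h.1 hx)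
  rw [← hcon] at hv
  have h4 : l (y -ᵥ x) = 0 := hker hv
  rw [vsub_eq_sub, map_sub] at h4
  apply hyF
  rw [hl]
  refine ⟨hF' hy, fun z hz => ?_⟩
  have hx' := hx
  rw [hl] at hx'
  have := hx'.2 z hz
  linarith

theorem dim : S_DIM := by
  constructor
  · intro d P F hF hmono hne i
    have hsub : ∀ i, F i ⊆ P := fun i => (hF i).2.subset
    have hlt : ∀ i, Module.finrank ℝ (vectorSpan ℝ (F i)) < d := by
      intro i
      have h1 : F i ⊂ P := lt_of_le_of_ne (hsub i) (hne i)
      have h2 := finrank_lt (hF i) (le_refl P) h1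
      have h3 : Module.finrank ℝ (vectorSpan ℝ P) ≤ d := by
        have := Submodule.finrank_le (vectorSpan ℝ P)
        rwa [finrank_euclideanSpace_fin] at this
      omega
    let g : Fin d → Fin d := fun i => ⟨Module.finrank ℝ (vectorSpan ℝ (F i)), hlt i⟩
    have hg : StrictMono g := by
      intro a b hab
      exact finrank_lt (hF a) (hsub b) (hmono hab)
    have hsurj : Function.Surjective g := Finite.injective_iff_surjective.mp hg.injective
    have hid : g = id := by
      apply (StrictMono.range_inj hg strictMono_id).mp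
      rw [hsurj.range_eq, range_id]
    have := congrFun hid i
    exact congrArg Fin.val this
  · intro d P hP
    have h1 := affineSpan_eq_top_of_nonempty_interior
      (hP.mono (interior_mono (subset_convexHull ℝ P)))
    rw [AffineSubspace.vectorSpan_eq_top_of_affineSpan_eq_top ℝ (E d) (E d) h1, finrank_top,
      finrank_euclideanSpace_fin]

end Pool.Agent.T9h77.DC
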