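import Pool.Agent.T9h98.DC.Defs

/-!
# Piece (FISO) of project DC (helper98): isometries map faces to faces
-/

set_option autoImplicit false

open Set

namespace Pool.Agent.T9h77.DC

open Pool.Agent.T9h98.DC

theorem fiso : S_FISO := by
  intro d P F g hg hF
  obtain ⟨hne, hexp⟩ := hF
  refine ⟨hne.image g, fun _ => ?_⟩
  obtain ⟨l, hl⟩ := hexp hne
  let a : E d ≃ᵃⁱ[ℝ] E d := g.toRealAffineIsometryEquiv
  let L : E d ≃ₗᵢ[ℝ] E d := a.linearIsometryEquiv
  have hL : ∀ x y : E d, L (x - y) = g x - g y := by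
    intro x y
    have := a.map_vsub x y
    simpa [a, vsub_eq_sub] using this
  let l' : StrongDual ℝ (E d) := l.comp (L.symm.toContinuousLinearEquiv : E d →L[ℝ] E d)
  have hl' : ∀ x y : E d, l' (g x) - l' (g y) = l x - l y := by
    intro x y
    rw [← map_sub, ← hL, ← map_sub l]
    simp [l']
  refine ⟨l', ?_⟩
  ext z
  constructor
  · rintro ⟨x, hx, rfl⟩
    have hx' := hx
    rw [hl] at hx'
    refine ⟨?_, fun w hw => ?_⟩
    · rw [← hg]
      exact mem_image_of_mem g hx'.1
    · rw [← hg] at hw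
      obtain ⟨y, hy, rfl⟩ := hw
      have h1 := hl' x y
      have h2 := hx'.2 y hy
      linarith
  · rintro ⟨hz, hmax⟩
    rw [← hg] at hz
    obtain ⟨x, hx, rfl⟩ := hz
    refine ⟨x, ?_, rfl⟩
    rw [hl]
    refine ⟨hx, fun y hy => ?_⟩
    have h1 := hl' x y
    have h2 := hmax (g y) (by rw [← hg]; exact mem_image_of_mem g hy)
    linarith

end Pool.Agent.T9h77.DC
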