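import Pool.Agent.T9h98.DC.Defs

/-!
# Piece (SYM) of project DC (helper98): signed permutations
-/

set_option autoImplicit false

open Set

namespace Pool.Agent.T9h77.DC

open Pool.Agent.T9h98.DC

theorem sym : S_SYM := by
  intro d σ K
  classical
  refine ⟨(LinearIsometryEquiv.piLpCongrLeft 2 ℝ ℝ σ).trans
    (LinearIsometryEquiv.piLpCongrRight 2
      (fun i => if K i = 0 then LinearIsometryEquiv.refl ℝ ℝ else LinearIsometryEquiv.neg ℝ)), ?_⟩
  intro T
  ext i
  rw [LinearIsometryEquiv.trans_apply, LinearIsometryEquiv.piLpCongrRight_apply]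
  have h1 : (LinearIsometryEquiv.piLpCongrLeft 2 ℝ ℝ σ (pt T)) i = pt T (σ.symm i) := rfl
  show (if K i = 0 then LinearIsometryEquiv.refl ℝ ℝ else LinearIsometryEquiv.neg ℝ)
    ((LinearIsometryEquiv.piLpCongrLeft 2 ℝ ℝ σ (pt T)) i) = _
  rw [h1, pt_apply, pt_apply]
  rcases zmod2 (K i) with h | h <;> rcases zmod2 (T (σ.symm i)) with h' | h' <;>
    simp [h, h']
  intro h2
  exact absurd (show (1 : ZMod 2) + 1 = 0 by decide) h2

end Pool.Agent.T9h77.DC
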